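import Pool.Agent.K7.H12.FI.Defs

/-!
# Project FI, job DIFF: `D v - D v'`
-/

set_option autoImplicit false

namespace Pool.Agent.K7.H12.FI

open Pool.Agent.K7.H15.Irr

section

variable {X V : Type}

theorem Over.arc_iff {H : OrientedGraph X} {p : V → X} {G : OrientedGraph V} (hG : Over H p G)
    (a b : V) : G.Arc a b ↔ H.Arc (p a) (p b) ∧ G.underlying.Adj a b := by
  constructor
  · intro h
    exact ⟨hG a b h, Or.inl h⟩
  · rintro ⟨h1, h2 | h2⟩
    · exact h2
    · exact absurd (hG b a h2) (H.asymm _ _ h1)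

theorem graph_ext {G G' : OrientedGraph V} (h : G.Arc = G'.Arc) : G = G' := by
  cases G
  cases G'
  cases h
  rfl

/-- nothing changes if the neighbourhood is replaced by itself -/
theorem upd_self_arc {H : OrientedGraph X} {p : V → X} {G : OrientedGraph V} (hG : Over H p G)
    (s a b : V) : (upd H p G s (nb G s)).Arc a b ↔ G.Arc a b := by
  show H.Arc (p a) (p b) ∧ ((a ≠ s ∧ b ≠ s ∧ G.Arc a b) ∨ (a = s ∧ b ∈ nb G s) ∨
    (b = s ∧ a ∈ nb G s)) ↔ G.Arc a b
  constructor
  · rintro ⟨h1, ⟨_, _, h⟩ | ⟨rfl, h⟩ | ⟨rfl, h⟩⟩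
    · exact h
    · exact (hG.arc_iff _ _).2 ⟨h1, h⟩
    · exact (hG.arc_iff _ _).2 ⟨h1, h.symm⟩
  · intro h
    refine ⟨hG _ _ h, ?_⟩
    by_cases ha : a = s
    · subst ha
      exact Or.inr (Or.inl ⟨rfl, Or.inl h⟩)
    · by_cases hb : b = s
      · subst hb
        exact Or.inr (Or.inr ⟨rfl, Or.inr h⟩)
      · exact Or.inl ⟨ha, hb, h⟩

theorem upd_self {H : OrientedGraph X} {p : V → X} {G : OrientedGraph V} (hG : Over H p G)
    (s : V) : upd H p G s (nb G s) = G := by
  have h : (upd H p G s (nb G s)).Arc = G.Arc := by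
    funext a b
    exact propext (upd_self_arc hG s a b)
  exact graph_ext h

theorem Over.upd {H : OrientedGraph X} {p : V → X} {G : OrientedGraph V} (s : V) (P : Set V) :
    Over H p (upd H p G s P) := fun _ _ h => h.1

end

theorem stDiff : StDiff := by
  classical
  intro X V _ _ F H p G hG v v' hvv hp
  have h1 : homs F G (fun φ => v ∈ Set.range φ) =
      homs F G (fun φ => v ∈ Set.range φ ∧ v' ∈ Set.range φ) ∪ homs F G (E1 v v') := by
    ext φ
    simp only [homs, E1, Set.mem_union, Set.mem_setOf_eq]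
    tauto
  have h2 : homs F G (fun φ => v' ∈ Set.range φ) =
      homs F G (fun φ => v ∈ Set.range φ ∧ v' ∈ Set.range φ) ∪ homs F G (E1 v' v) := by
    ext φ
    simp only [homs, E1, Set.mem_union, Set.mem_setOf_eq]
    tauto
  have d1 : (homs F G (fun φ => v ∈ Set.range φ)).ncard =
      (homs F G (fun φ => v ∈ Set.range φ ∧ v' ∈ Set.range φ)).ncard +
        (homs F G (E1 v v')).ncard := by
    rw [h1]
    refine Set.ncard_union_eq ?_ (Set.toFinite _) (Set.toFinite _)
    rw [Set.disjoint_left]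
    rintro φ ⟨_, _, _, h⟩ ⟨_, _, _, h'⟩
    exact h' h
  have d2 : (homs F G (fun φ => v' ∈ Set.range φ)).ncard =
      (homs F G (fun φ => v ∈ Set.range φ ∧ v' ∈ Set.range φ)).ncard +
        (homs F G (E1 v' v)).ncard := by
    rw [h2]
    refine Set.ncard_union_eq ?_ (Set.toFinite _) (Set.toFinite _)
    rw [Set.disjoint_left]
    rintro φ ⟨_, _, h, _⟩ ⟨_, _, _, h'⟩
    exact h' h
  have d3 : homs F (upd H p G v (nb G v')) (E1 v v') =
      (fun φ : X → V => Equiv.swap v v' ∘ φ) '' homs F G (E1 v' v) := by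
    ext φ
    constructor
    · rintro ⟨hinj, hhom, hv, hv'⟩
      refine ⟨Equiv.swap v v' ∘ φ, ⟨(Equiv.swap v v').injective.comp hinj, ?_, ?_, ?_⟩, ?_⟩
      · intro x y hxy
        have hx' : φ x ≠ v' := fun h => hv' ⟨x, h⟩
        have hy' : φ y ≠ v' := fun h => hv' ⟨y, h⟩
        obtain ⟨hH, ⟨ha, hb, h⟩ | ⟨ha, h⟩ | ⟨hb, h⟩⟩ := hhom x y hxy
        · show G.Arc (Equiv.swap v v' (φ x)) (Equiv.swap v v' (φ y))
          rwa [Equiv.swap_apply_of_ne_of_ne ha hx', Equiv.swap_apply_of_ne_of_ne hb hy']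
        · have hb : φ y ≠ v := by
            intro hb
            rw [ha, hb] at hH
            exact H.asymm _ _ hH hH
          show G.Arc (Equiv.swap v v' (φ x)) (Equiv.swap v v' (φ y))
          rw [Equiv.swap_apply_of_ne_of_ne hb hy', ha, Equiv.swap_apply_left, hG.arc_iff]
          refine ⟨?_, h⟩
          rwa [ha, hp] at hH
        · have ha : φ x ≠ v := by
            intro ha
            rw [ha, hb] at hH
            exact H.asymm _ _ hH hH
          show G.Arc (Equiv.swap v v' (φ x)) (Equiv.swap v v' (φ y))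
          rw [Equiv.swap_apply_of_ne_of_ne ha hx', hb, Equiv.swap_apply_left, hG.arc_iff]
          refine ⟨?_, h.symm⟩
          rwa [hb, hp] at hH
      · obtain ⟨x, hx⟩ := hv
        exact ⟨x, by simp [hx]⟩
      · rintro ⟨x, hx⟩
        refine hv' ⟨x, ?_⟩
        have := congrArg (Equiv.swap v v') hx
        simpa using this
      · funext x
        simp
    · rintro ⟨ψ, ⟨hinj, hhom, hv, hv'⟩, rfl⟩
      refine ⟨(Equiv.swap v v').injective.comp hinj, ?_, ?_, ?_⟩
      · intro x y hxy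
        have hx : ψ x ≠ v := fun h => hv' ⟨x, h⟩
        have hy : ψ y ≠ v := fun h => hv' ⟨y, h⟩
        have h := hhom x y hxy
        have hH := hG _ _ h
        have hne : ψ x ≠ ψ y := fun he => by
          rw [he] at h
          exact G.asymm _ _ h h
        show H.Arc (p (Equiv.swap v v' (ψ x))) (p (Equiv.swap v v' (ψ y))) ∧
          ((Equiv.swap v v' (ψ x) ≠ v ∧ Equiv.swap v v' (ψ y) ≠ v ∧
            G.Arc (Equiv.swap v v' (ψ x)) (Equiv.swap v v' (ψ y))) ∨
          (Equiv.swap v v' (ψ x) = v ∧ Equiv.swap v v' (ψ y) ∈ nb G v') ∨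
          (Equiv.swap v v' (ψ y) = v ∧ Equiv.swap v v' (ψ x) ∈ nb G v'))
        by_cases hx' : ψ x = v'
        · have hy' : ψ y ≠ v' := fun he => hne (hx'.trans he.symm)
          rw [Equiv.swap_apply_of_ne_of_ne hy hy', hx', Equiv.swap_apply_right]
          rw [hx'] at h hH
          refine ⟨by rw [hp]; exact hH, Or.inr (Or.inl ⟨rfl, Or.inl h⟩)⟩
        · by_cases hy' : ψ y = v'
          · rw [Equiv.swap_apply_of_ne_of_ne hx hx', hy', Equiv.swap_apply_right]
            rw [hy'] at h hH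
            refine ⟨by rw [hp]; exact hH, Or.inr (Or.inr ⟨rfl, Or.inr h⟩)⟩
          · rw [Equiv.swap_apply_of_ne_of_ne hx hx', Equiv.swap_apply_of_ne_of_ne hy hy']
            exact ⟨hH, Or.inl ⟨hx, hy, h⟩⟩
      · obtain ⟨x, hx⟩ := hv
        exact ⟨x, by simp [hx]⟩
      · rintro ⟨x, hx⟩
        refine hv' ⟨x, ?_⟩
        have := congrArg (Equiv.swap v v') hx
        simpa using this
  have d4 : (homs F (upd H p G v (nb G v')) (E1 v v')).ncard = (homs F G (E1 v' v)).ncard := by
    rw [d3]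
    refine Set.ncard_image_of_injective _ ?_
    intro φ φ' h
    funext x
    exact (Equiv.swap v v').injective (congrFun h x)
  unfold D mu
  rw [upd_self hG, d1, d2, d4]
  push_cast
  ring

end Pool.Agent.K7.H12.FI
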