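import Pool.Agent.K7.H12.FI.Conc

/-!
# Project FI: assembly of the comparisons
-/

set_option autoImplicit false

namespace Pool.Agent.K7.H12.FI

open Pool.Agent.K7.H15.Irr

theorem Ok.mono {X : Type} {F : OrientedGraph X} {P : Par X} {h : IsHom F F P.ρ} {A A' a B : ℕ}
    {x : X → ℕ} (ho : Ok F P h A a B x) (hA : A' ≤ A) : Ok F P h A' a B x where
  hx := ho.hx
  hr := ho.hr
  ratio := ho.ratio
  Rup := ho.Rup
  Rex := ho.Rex
  blk_lt := ho.blk_lt
  blk_mono := ho.blk_mono
  blk_card := ho.blk_card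
  even := ho.even
  ha := hA.trans ho.ha
  hb := (Nat.mul_le_mul_right _ hA).trans ho.hb
  hB := (Nat.mul_le_mul_right _ (Nat.mul_le_mul_right _ hA)).trans ho.hB

theorem D_eq_of_fdeg {X V : Type} [Finite X] [Finite V] (hA : StAut) (F : OrientedGraph X)
    (G : OrientedGraph V) (v v' : V) (h : fdeg F G v = fdeg F G v') : D F G v = D F G v' := by
  obtain ⟨c, hc⟩ := hA X V F G
  unfold D mu
  rw [hc v, hc v', h]

theorem col_mono {X : Type} [Finite X] {F : OrientedGraph X} {P : Par X} {h : IsHom F F P.ρ}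
    (g : Cls P) (i : Fin (P.r g.1))
    (hc : ∀ (j j' : Fin P.m), (j : ℕ) + 1 = (j' : ℕ) →
      D F (gph F P h) (bk g i j) < D F (gph F P h) (bk g i j')) :
    ∀ (d : ℕ) (j j' : Fin P.m), (j : ℕ) + 1 + d = (j' : ℕ) →
      D F (gph F P h) (bk g i j) < D F (gph F P h) (bk g i j') := by
  intro d
  induction d with
  | zero => intro j j' hjj; exact hc j j' (by omega)
  | succ d ih =>
    intro j j' hjj
    have h1 : (j' : ℕ) - 1 < P.m := by have := j'.2; omega
    have h2 := ih j ⟨(j' : ℕ) - 1, h1⟩ (by simp only; omega)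
    have h3 := hc ⟨(j' : ℕ) - 1, h1⟩ j' (by simp only; omega)
    exact h2.trans h3

theorem nonStar (hAut : StAut) (hRow : StRow) (hCol : StCol) (hW : StW) (hT : StT) (hWB : StWB)
    (hTW : StTW) (hCross : StCross) (hPar : StPar) : StNonStar := by
  intro X _ F hF h3 hns N
  obtain ⟨A1, h1⟩ := hRow X F hF h3
  obtain ⟨A2, h2⟩ := hCol X F hF h3 hns
  obtain ⟨A3, h3'⟩ := hW X F hF h3
  obtain ⟨A4, h4⟩ := hT X F hF h3
  obtain ⟨A5, h5⟩ := hWB X F hF h3
  obtain ⟨A6, h6⟩ := hTW X F hF h3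
  obtain ⟨A7, h7⟩ := hCross X F hF h3
  obtain ⟨P, h, a, B, x, hok, hN, hmin⟩ := hPar X F hF h3 (A1 + A2 + A3 + A4 + A5 + A6 + A7) N
  have e1 := h1 P h a B x (hok.mono (by omega))
  have e2 := h2 P h a B x (hok.mono (by omega))
  have e3 := h3' P h a B x (hok.mono (by omega))
  have e4 := h4 P h a B x (hok.mono (by omega))
  have e5 := h5 P h a B x (hok.mono (by omega))
  have e6 := h6 P h a B x (hok.mono (by omega))
  have e7 := h7 P h a B x (hok.mono (by omega)) hmin
  refine ⟨Vt P, inferInstance, gph F P h, hN, ?_⟩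
  intro v v' hvv hdeg
  have hD := D_eq_of_fdeg hAut F (gph F P h) v v' hdeg
  by_cases hcl : cl v = cl v'
  swap
  · exact e7 v v' hcl hD
  obtain ⟨g, s⟩ := v
  obtain ⟨g', s'⟩ := v'
  have hg : g = g' := Subtype.ext hcl
  subst hg
  rcases s with ⟨i, j⟩ | ⟨c, l⟩ | j <;> rcases s' with ⟨i', j'⟩ | ⟨c', l'⟩ | j'
  · -- bulk, bulk
    have hD' : D F (gph F P h) (bk g i j) = D F (gph F P h) (bk g i' j') := hD
    rcases lt_trichotomy i i' with hi | hi | hi
    · exact absurd hD' (e1 g i i' j j' hi).ne'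
    · subst hi
      rcases lt_trichotomy j j' with hj | hj | hj
      · have hj1 : (j : ℕ) < (j' : ℕ) := hj
        exact absurd hD' (col_mono g i (fun a b hab => e2 g i a b hab) ((j' : ℕ) - j - 1) j j'
          (by omega)).ne
      · subst hj; exact hvv rfl
      · have hj1 : (j' : ℕ) < (j : ℕ) := hj
        exact absurd hD' (col_mono g i (fun a b hab => e2 g i a b hab) ((j : ℕ) - j' - 1) j' j
          (by omega)).ne'
    · exact absurd hD' (e1 g i' i j' j hi).ne
  · -- bulk, t
    exact absurd hD ((e6 g c' l' j).trans (e5 g i j j)).ne'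
  · exact absurd hD (e5 g i j j').ne'
  · exact absurd hD ((e6 g c l j').trans (e5 g i' j' j')).ne
  · -- t, t
    have hD' : D F (gph F P h) (tt g c l) = D F (gph F P h) (tt g c' l') := hD
    rcases lt_trichotomy l l' with hi | hi | hi
    · exact absurd hD' (e4 g c c' l l' (Or.inl hi)).ne
    · subst hi
      rcases lt_trichotomy c c' with hj | hj | hj
      · exact absurd hD' (e4 g c' c l l (Or.inr ⟨rfl, hj⟩)).ne'
      · subst hj; exact hvv rfl
      · exact absurd hD' (e4 g c c' l l (Or.inr ⟨rfl, hj⟩)).ne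
    · exact absurd hD' (e4 g c' c l' l (Or.inl hi)).ne'
  · exact absurd hD (e6 g c l j').ne
  · exact absurd hD (e5 g i' j' j).ne
  · exact absurd hD (e6 g c' l' j).ne'
  · have hD' : D F (gph F P h) (ww g j) = D F (gph F P h) (ww g j') := hD
    rcases lt_trichotomy j j' with hj | hj | hj
    · exact absurd hD' (e3 g j j' hj).ne'
    · subst hj; exact hvv rfl
    · exact absurd hD' (e3 g j' j hj).ne

end Pool.Agent.K7.H12.FI
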