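import Pool.Agent.K7.H12.FI.Conc

/-!
# Project FI, job PAR: there are parameters
-/

set_option autoImplicit false

namespace Pool.Agent.K7.H12.FI

open Pool.Agent.K7.H15.Irr

/-- the first column of the block `c` -/
def SS (B c : ℕ) : ℕ := ∑ i ∈ Finset.range c, (B + i)

theorem SS_succ (B c : ℕ) : SS B (c + 1) = SS B c + (B + c) := Finset.sum_range_succ _ _

theorem SS_zero (B : ℕ) : SS B 0 = 0 := rfl

theorem SS_mono (B : ℕ) : Monotone (SS B) :=
  monotone_nat_of_le_succ fun c => by rw [SS_succ]; omega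

theorem SS_even (B t : ℕ) : Even (SS B (4 * t)) := by
  induction t with
  | zero => exact ⟨0, rfl⟩
  | succ t ih =>
    have h : 4 * (t + 1) = 4 * t + 1 + 1 + 1 + 1 := by ring
    rw [h, SS_succ, SS_succ, SS_succ, SS_succ]
    obtain ⟨r, hr⟩ := ih
    exact ⟨r + 2 * B + 8 * t + 3, by omega⟩

theorem SS_ge (B b : ℕ) (hb : 1 ≤ b) : B ≤ SS B b := by
  have h := SS_mono B hb
  have h1 : SS B 1 = B := by
    rw [show (1 : ℕ) = 0 + 1 from rfl, SS_succ, SS_zero]; omega
  omega

open Classical in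
/-- the block of a column -/
noncomputable def bl (B b j : ℕ) : ℕ := Nat.findGreatest (fun c => SS B c ≤ j) b

theorem bl_spec (B b j : ℕ) (hj : j < SS B b) : SS B (bl B b j) ≤ j ∧ j < SS B (bl B b j + 1) ∧
    bl B b j < b := by
  classical
  have h1 : SS B (bl B b j) ≤ j := by
    have := Nat.findGreatest_spec (P := fun c => SS B c ≤ j) (n := b) (Nat.zero_le b)
      (by rw [SS_zero]; omega)
    exact this
  have h2 : bl B b j < b := by
    have h := Nat.findGreatest_le (P := fun c => SS B c ≤ j) b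
    rcases Nat.lt_or_ge (bl B b j) b with h' | h'
    · exact h'
    · exfalso
      have : SS B b ≤ SS B (bl B b j) := SS_mono B h'
      omega
  refine ⟨h1, ?_, h2⟩
  by_contra hcon
  push Not at hcon
  exact Nat.findGreatest_is_greatest (P := fun c => SS B c ≤ j) (k := bl B b j + 1) (n := b)
    (Nat.lt_succ_self _) h2 hcon

theorem bl_eq (B b j c : ℕ) (hj : j < SS B b) (h1 : SS B c ≤ j) (h2 : j < SS B (c + 1)) :
    bl B b j = c := by
  obtain ⟨e1, e2, e3⟩ := bl_spec B b j hj
  rcases Nat.lt_trichotomy (bl B b j) c with h | h | h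
  · have := SS_mono B (show bl B b j + 1 ≤ c from h)
    omega
  · exact h
  · have := SS_mono B (show c + 1 ≤ bl B b j from h)
    omega

theorem exists_min_end {X : Type} [Finite X] (F : OrientedGraph X) : ∃ ρ : X → X, IsHom F F ρ ∧
    ∀ f : X → X, IsHom F F f → (Set.range ρ).ncard ≤ (Set.range f).ncard := by
  classical
  have hex : ∃ n : ℕ, ∃ f : X → X, IsHom F F f ∧ (Set.range f).ncard = n :=
    ⟨_, id, fun _ _ h => h, rfl⟩
  obtain ⟨ρ, h1, h2⟩ := Nat.find_spec hex
  refine ⟨ρ, h1, fun f hf => ?_⟩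
  rw [h2]
  exact Nat.find_min' hex ⟨f, hf, rfl⟩

theorem stPar : StPar := by
  classical
  intro X _ F hF h3 A N
  have := Fintype.ofFinite X
  obtain ⟨ρ, hρ, hmin⟩ := exists_min_end F
  have hnt : Nontrivial X := by
    rw [← Finite.one_lt_card_iff_nontrivial]
    omega
  have hcard : Nat.card X = Fintype.card X := Nat.card_eq_fintype_card
  let e := Fintype.equivFin X
  let x : X → ℕ := fun g => (16 * Nat.card X) ^ ((e g : Fin _) : ℕ)
  let a : ℕ := A + 1
  let b : ℕ := 4 * (A * a ^ 2 + 1)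
  let B : ℕ := A * a * b + N + 1
  let r : X → ℕ := fun g => x g * a
  let R : X → ℕ := fun g => (Finset.univ.filter fun g' => (img F ρ hρ).underlying.Adj g g').sup r
  let P : Par X := ⟨ρ, r, R, SS B b, b, bl B b⟩
  have h16 : 1 ≤ 16 * Nat.card X := by omega
  have hadjr : ∀ g g' : X, (img F ρ hρ).underlying.Adj g g' → g' ∈ Set.range ρ := by
    rintro g g' (⟨y, z, _, _, h⟩ | ⟨y, z, _, h, _⟩)
    · exact ⟨z, h⟩
    · exact ⟨y, h⟩
  refine ⟨P, hρ, a, B, x, ?_, ?_, hmin⟩
  · refine ⟨?_, fun g => rfl, ?_, ?_, ?_, ?_, ?_, ?_, ?_, ?_, ?_, ?_⟩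
    · intro g
      refine ⟨Nat.one_le_pow _ _ h16, ?_⟩
      show (16 * Nat.card X) ^ ((e g.1 : Fin _) : ℕ) ≤ (16 * Nat.card X) ^ Nat.card X
      refine Nat.pow_le_pow_right h16 ?_
      rw [hcard]
      exact (e g.1).2.le
    · intro g g' hgg
      have hne : ((e g.1 : Fin _) : ℕ) ≠ ((e g'.1 : Fin _) : ℕ) := fun h =>
        hgg (Subtype.ext (e.injective (Fin.ext h)))
      have key : ∀ i i' : ℕ, i < i' →
          16 * Nat.card X * (16 * Nat.card X) ^ i ≤ (16 * Nat.card X) ^ i' := by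
        intro i i' h
        rw [← pow_succ']
        exact Nat.pow_le_pow_right h16 h
      rcases Nat.lt_or_gt_of_ne hne with h | h
      · exact Or.inl (key _ _ h)
      · exact Or.inr (key _ _ h)
    · intro g g' h
      exact Finset.le_sup (f := r) (Finset.mem_filter.2 ⟨Finset.mem_univ _, h⟩)
    · intro g
      have hne : (Finset.univ.filter fun g' => (img F ρ hρ).underlying.Adj g.1 g').Nonempty := by
        obtain ⟨y, hy⟩ := g.2
        obtain ⟨z, hz⟩ := hF.preconnected.exists_adj_of_nontrivial y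
        refine ⟨ρ z, Finset.mem_filter.2 ⟨Finset.mem_univ _, ?_⟩⟩
        rcases hz with hz | hz
        · exact Or.inl ⟨y, z, hz, hy, rfl⟩
        · exact Or.inr ⟨z, y, hz, rfl, hy⟩
      obtain ⟨g', hg', hs⟩ := Finset.exists_mem_eq_sup _ hne r
      have hadj := (Finset.mem_filter.1 hg').2
      exact ⟨⟨g', hadjr _ _ hadj⟩, hadj, hs.symm⟩
    · intro j hj
      exact (bl_spec B b j hj).2.2
    · intro j hj
      have hj' : j < SS B b := lt_trans (Nat.lt_succ_self j) hj
      obtain ⟨e1, e2, e3⟩ := bl_spec B b j hj'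
      rcases Nat.lt_or_ge (j + 1) (SS B (bl B b j + 1)) with h | h
      · left
        exact bl_eq B b (j + 1) (bl B b j) hj (le_trans e1 (Nat.le_succ j)) h
      · right
        refine bl_eq B b (j + 1) _ hj h ?_
        rw [SS_succ B (bl B b j + 1)]
        omega
    · intro c hc
      have hset : {j : ℕ | j < SS B b ∧ bl B b j = c} = ↑(Finset.Ico (SS B c) (SS B (c + 1))) := by
        ext j
        rw [Finset.coe_Ico, Set.mem_Ico]
        constructor
        · rintro ⟨h1, rfl⟩
          obtain ⟨e1, e2, _⟩ := bl_spec B b j h1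
          exact ⟨e1, e2⟩
        · rintro ⟨h1, h2⟩
          have h4 : j < SS B b := lt_of_lt_of_le h2 (SS_mono B hc)
          exact ⟨h4, bl_eq B b j c h4 h1 h2⟩
      show {j : ℕ | j < SS B b ∧ bl B b j = c}.ncard = B + c
      rw [hset, Set.ncard_coe_finset, Nat.card_Ico, SS_succ]
      omega
    · exact SS_even B _
    · exact Nat.le_succ A
    · show A * a ^ 2 ≤ 4 * (A * a ^ 2 + 1)
      omega
    · show A * a * b ≤ A * a * b + N + 1
      omega
  · obtain ⟨y⟩ : Nonempty X := inferInstance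
    let g : Cls P := ⟨ρ y, ⟨y, rfl⟩⟩
    have hinj : Function.Injective (fun j : Fin P.m => (ww g j : Vt P)) := by
      intro j j' hjj
      have h1 := Sigma.mk.inj hjj
      have h2 := eq_of_heq h1.2
      exact Sum.inr.inj (Sum.inr.inj h2)
    have h1 := Nat.card_le_card_of_injective _ hinj
    rw [Nat.card_fin] at h1
    have h2 : B ≤ SS B b := SS_ge B b (by show 1 ≤ 4 * (A * a ^ 2 + 1); omega)
    have h3' : P.m = SS B b := rfl
    have h4 : N ≤ B := by show N ≤ A * a * b + N + 1; omega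
    omega

end Pool.Agent.K7.H12.FI
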