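import Pool.Agent.K7.H12.FI.Conc
import Pool.Agent.K7.H15.Irr.Main

/-!
# Project FI: transport, reversal, the final assembly
-/

set_option autoImplicit false

namespace Pool.Agent.K7.H12.FI

open Pool.Agent.K7.H15.Irr

universe u v u' v'

section transport

variable {V : Type u} {W : Type u'} {X : Type v} {Y : Type v'}

/-- transport of subgraphs -/
def subEquiv (G : OrientedGraph V) (G' : OrientedGraph W) (e : V ≃ W)
    (hG : ∀ a b, G.Arc a b ↔ G'.Arc (e a) (e b)) : Sub G ≃ Sub G' where
  toFun H :=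
    { verts := {a | e.symm a ∈ H.verts}
      arcs := {x | (e.symm x.1, e.symm x.2) ∈ H.arcs}
      arc := by
        rintro x hx
        obtain ⟨h1, h2, h3⟩ := H.arc _ hx
        refine ⟨?_, h2, h3⟩
        have := (hG _ _).1 h1
        simpa using this }
  invFun H :=
    { verts := {a | e a ∈ H.verts}
      arcs := {x | (e x.1, e x.2) ∈ H.arcs}
      arc := by
        rintro x hx
        obtain ⟨h1, h2, h3⟩ := H.arc _ hx
        exact ⟨(hG _ _).2 h1, h2, h3⟩ }
  left_inv H := by
    refine Sub.ext ?_ ?_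
    · ext a; simp
    · ext x; simp
  right_inv H := by
    refine Sub.ext ?_ ?_
    · ext a; simp
    · ext x; simp

theorem isoTo_of {F : OrientedGraph X} {F' : OrientedGraph Y} {G : OrientedGraph V}
    {G' : OrientedGraph W} (e : V ≃ W) (eX : X ≃ Y)
    (hF : ∀ x y, F.Arc x y ↔ F'.Arc (eX x) (eX y)) {H : Sub G} {H' : Sub G'}
    (hv : ∀ a, a ∈ H.verts ↔ e a ∈ H'.verts)
    (ha : ∀ a b, (a, b) ∈ H.arcs ↔ (e a, e b) ∈ H'.arcs) (h : H.IsoTo F) : H'.IsoTo F' := by
  obtain ⟨ε, hε⟩ := h
  refine ⟨eX.symm.trans (ε.trans (e.subtypeEquiv hv)), fun x y => ?_⟩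
  have h1 := hF (eX.symm x) (eX.symm y)
  rw [Equiv.apply_symm_apply, Equiv.apply_symm_apply] at h1
  rw [← h1, hε, ha]
  rfl

theorem fdeg_congr {F : OrientedGraph X} {F' : OrientedGraph Y} {G : OrientedGraph V}
    {G' : OrientedGraph W} (e : V ≃ W) (eX : X ≃ Y)
    (hG : ∀ a b, G.Arc a b ↔ G'.Arc (e a) (e b))
    (hF : ∀ x y, F.Arc x y ↔ F'.Arc (eX x) (eX y)) (v : V) :
    fdeg F G v = fdeg F' G' (e v) := by
  unfold fdeg
  refine Nat.card_congr ((subEquiv G G' e hG).subtypeEquiv fun H => ?_)
  have hv : ∀ a, a ∈ H.verts ↔ e a ∈ ((subEquiv G G' e hG) H).verts := by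
    intro a
    show a ∈ H.verts ↔ e.symm (e a) ∈ H.verts
    rw [Equiv.symm_apply_apply]
  have ha : ∀ a b, (a, b) ∈ H.arcs ↔ (e a, e b) ∈ ((subEquiv G G' e hG) H).arcs := by
    intro a b
    show (a, b) ∈ H.arcs ↔ (e.symm (e a), e.symm (e b)) ∈ H.arcs
    rw [Equiv.symm_apply_apply, Equiv.symm_apply_apply]
  refine and_congr (hv v) ⟨fun h => isoTo_of e eX hF hv ha h, fun h => ?_⟩
  refine isoTo_of e.symm eX.symm ?_ ?_ ?_ h
  · intro x y
    rw [hF, Equiv.apply_symm_apply, Equiv.apply_symm_apply]
  · intro a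
    rw [hv, Equiv.apply_symm_apply]
  · intro a b
    rw [ha, Equiv.apply_symm_apply, Equiv.apply_symm_apply]

/-- the reversed graph -/
def rev (G : OrientedGraph V) : OrientedGraph V where
  Arc a b := G.Arc b a
  asymm := fun _ _ h h' => G.asymm _ _ h h'

/-- reversal of subgraphs -/
def subRev (G : OrientedGraph V) : Sub G ≃ Sub (rev G) where
  toFun H :=
    { verts := H.verts
      arcs := {x | (x.2, x.1) ∈ H.arcs}
      arc := by
        rintro x hx
        obtain ⟨h1, h2, h3⟩ := H.arc _ hx
        exact ⟨h1, h3, h2⟩ }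
  invFun H :=
    { verts := H.verts
      arcs := {x | (x.2, x.1) ∈ H.arcs}
      arc := by
        rintro x hx
        obtain ⟨h1, h2, h3⟩ := H.arc _ hx
        exact ⟨h1, h3, h2⟩ }
  left_inv H := by
    refine Sub.ext rfl ?_
    ext x; rfl
  right_inv H := by
    refine Sub.ext rfl ?_
    ext x; rfl

theorem fdeg_rev (F : OrientedGraph X) (G : OrientedGraph V) (v : V) :
    fdeg F G v = fdeg (rev F) (rev G) v := by
  unfold fdeg
  refine Nat.card_congr ((subRev G).subtypeEquiv fun H => ?_)
  refine and_congr Iff.rfl ⟨?_, ?_⟩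
  · rintro ⟨ε, hε⟩
    exact ⟨ε, fun x y => hε y x⟩
  · rintro ⟨ε, hε⟩
    exact ⟨ε, fun x y => hε y x⟩

theorem connected_rev {F : OrientedGraph X} (h : F.WeaklyConnected) : (rev F).WeaklyConnected := by
  have : (rev F).underlying = F.underlying := by
    ext x y
    exact Or.comm
  unfold OrientedGraph.WeaklyConnected
  rw [this]
  exact h

theorem irregular_congr {F : OrientedGraph X} {F' : OrientedGraph Y} {G : OrientedGraph V}
    {G' : OrientedGraph W} (e : V ≃ W) (eX : X ≃ Y)
    (hG : ∀ a b, G.Arc a b ↔ G'.Arc (e a) (e b))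
    (hF : ∀ x y, F.Arc x y ↔ F'.Arc (eX x) (eX y)) (h : Irregular F G) : Irregular F' G' := by
  intro x y hxy
  have h1 := h (e.symm x) (e.symm y) (fun he => hxy (e.symm.injective he))
  rw [fdeg_congr e eX hG hF, fdeg_congr e eX hG hF, Equiv.apply_symm_apply,
    Equiv.apply_symm_apply] at h1
  exact h1

end transport

/-- the conclusion -/
def Many {X : Type} (F : OrientedGraph X) : Prop :=
  ∀ N : ℕ, ∃ (V : Type) (_ : Finite V) (G : OrientedGraph V), N ≤ Nat.card V ∧ Irregular F G

theorem many_rev {X : Type} {F : OrientedGraph X} (h : Many (rev F)) : Many F := by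
  intro N
  obtain ⟨V, hV, G, hN, hG⟩ := h N
  refine ⟨V, hV, rev G, hN, fun x y hxy => ?_⟩
  have h1 := fdeg_rev F (rev G) x
  have h2 := fdeg_rev F (rev G) y
  intro he
  refine hG x y hxy ?_
  have h3 : fdeg (rev F) (rev (rev G)) x = fdeg (rev F) G x := rfl
  have h4 : fdeg (rev F) (rev (rev G)) y = fdeg (rev F) G y := rfl
  omega

theorem many_of_infinite {X : Type} {F : OrientedGraph X}
    (h : {n : ℕ | ∃ G : OrientedGraph (Fin n), Irregular F G}.Infinite) : Many F := by
  intro N
  obtain ⟨n, ⟨G, hG⟩, hn⟩ := h.exists_gt N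
  exact ⟨Fin n, inferInstance, G, by rw [Nat.card_fin]; omega, hG⟩

/-- the directed path with two arcs -/
theorem many_path {X : Type} [Finite X] (F : OrientedGraph X) (hF : F.WeaklyConnected)
    (h3 : 3 ≤ Nat.card X) (c a b : X) (hac : F.Arc a c) (hcb : F.Arc c b)
    (hin : ∀ x, F.Arc x c → x = a) (hout : ∀ x, F.Arc c x → x = b)
    (hc : ∀ x y, F.Arc x y → x = c ∨ y = c) : Many F := by
  classical
  haveI := Fintype.ofFinite X
  refine many_of_infinite (Pool.Agent.K7.H15.Irr.main F hF (by rwa [← Nat.card_eq_fintype_card]) ?_)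
  -- every vertex is a, b or c
  have hall : ∀ x, x = a ∨ x = c ∨ x = b := by
    intro x
    by_cases hxc : x = c
    · exact Or.inr (Or.inl hxc)
    · have hne : Nontrivial X := ⟨x, c, hxc⟩
      obtain ⟨p⟩ := hF.preconnected x c
      cases p with
      | nil => exact absurd rfl hxc
      | cons hadj _ =>
        rcases hadj with h | h
        · rcases hc _ _ h with h' | h'
          · exact absurd h' hxc
          · subst h'; exact Or.inl (hin _ h)
        · rcases hc _ _ h with h' | h'
          · subst h'; exact Or.inr (Or.inr (hout _ h))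
          · exact absurd h' hxc
  have hcc : ¬ F.Arc c c := fun h => F.asymm _ _ h h
  have hac' : a ≠ c := by rintro rfl; exact hcc hac
  have hbc' : b ≠ c := by rintro rfl; exact hcc hcb
  intro f hf
  have h1 := hf _ _ hac
  have h2 := hf _ _ hcb
  have hfc : f c = c := by
    by_contra hne
    have e1 : f a = c := (hc _ _ h1).resolve_right hne
    have e2 : f b = c := (hc _ _ h2).resolve_left hne
    rw [e1] at h1
    rw [e2] at h2
    exact F.asymm _ _ h1 h2
  rw [hfc] at h1 h2
  have hfa : f a = a := hin _ h1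
  have hfb : f b = b := hout _ h2
  intro x y hxy
  rcases hall x with rfl | rfl | rfl <;> rcases hall y with rfl | rfl | rfl <;>
    simp_all

/-- a star with in-degree and out-degree of the centre -/
theorem star_cases (hS : StStar) {X : Type} [Finite X] (F : OrientedGraph X)
    (hF : F.WeaklyConnected) (h3 : 3 ≤ Nat.card X) (c : X)
    (hc : ∀ x y, F.Arc x y → x = c ∨ y = c) : Many F := by
  classical
  by_cases h1 : 2 ≤ {y | F.Arc c y}.ncard
  · exact hS X F hF c hc h1
  by_cases h2 : 2 ≤ {y | F.Arc y c}.ncard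
  · exact many_rev (hS X (rev F) (connected_rev hF) c (fun x y h => (hc y x h).symm) h2)
  -- every vertex different from c is adjacent to c
  have hadj : ∀ x, x ≠ c → F.Arc x c ∨ F.Arc c x := by
    intro x hxc
    obtain ⟨p⟩ := hF.preconnected x c
    cases p with
    | nil => exact absurd rfl hxc
    | cons hadj _ =>
      rcases hadj with h | h
      · rcases hc _ _ h with h' | h'
        · exact absurd h' hxc
        · subst h'; exact Or.inl h
      · rcases hc _ _ h with h' | h'
        · subst h'; exact Or.inr h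
        · exact absurd h' hxc
  have hcov : (Set.univ : Set X) ⊆ {c} ∪ ({y | F.Arc c y} ∪ {y | F.Arc y c}) := by
    intro x _
    by_cases hxc : x = c
    · exact Or.inl hxc
    · rcases hadj x hxc with h | h
      · exact Or.inr (Or.inr h)
      · exact Or.inr (Or.inl h)
  have hcard := Set.ncard_le_ncard hcov (Set.toFinite _)
  rw [Set.ncard_univ] at hcard
  have hu1 := Set.ncard_union_le {c} ({y | F.Arc c y} ∪ {y | F.Arc y c})
  have hu2 := Set.ncard_union_le {y | F.Arc c y} {y | F.Arc y c}
  rw [Set.ncard_singleton] at hu1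
  have e1 : {y | F.Arc c y}.ncard = 1 := by omega
  have e2 : {y | F.Arc y c}.ncard = 1 := by omega
  obtain ⟨b, hb⟩ := Set.ncard_eq_one.1 e1
  obtain ⟨a, ha⟩ := Set.ncard_eq_one.1 e2
  refine many_path F hF h3 c a b ?_ ?_ ?_ ?_ hc
  · have : a ∈ {y | F.Arc y c} := by rw [ha]; rfl
    exact this
  · have : b ∈ {y | F.Arc c y} := by rw [hb]; rfl
    exact this
  · intro x hx
    have : x ∈ {y | F.Arc y c} := hx
    rw [ha] at this
    exact this
  · intro x hx
    have : x ∈ {y | F.Arc c y} := hx
    rw [hb] at this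
    exact this

theorem fin (hN : StNonStar) (hS : StStar) : StFin := by
  intro X _ F hF h3
  by_cases h : ∀ c : X, ∃ x y, F.Arc x y ∧ x ≠ c ∧ y ≠ c
  · exact hN X F hF h3 h
  · push Not at h
    obtain ⟨c, hc⟩ := h
    refine star_cases hS F hF h3 c fun x y hxy => ?_
    by_contra hcon
    push Not at hcon
    exact hcon.2 (hc x y hxy hcon.1)

/-- the final theorem -/
theorem final (hfin : StFin) {X : Type u} [Fintype X] (F : OrientedGraph X)
    (hF : F.WeaklyConnected) (h3 : 3 ≤ Fintype.card X) :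
    {n : ℕ | ∃ G : OrientedGraph (Fin n), Irregular F G}.Infinite := by
  classical
  let e := Fintype.equivFin X
  let F' : OrientedGraph (Fin (Fintype.card X)) :=
    { Arc := fun a b => F.Arc (e.symm a) (e.symm b)
      asymm := fun _ _ h h' => F.asymm _ _ h h' }
  have hiso : ∀ x y, F.Arc x y ↔ F'.Arc (e x) (e y) := by
    intro x y
    show F.Arc x y ↔ F.Arc (e.symm (e x)) (e.symm (e y))
    rw [Equiv.symm_apply_apply, Equiv.symm_apply_apply]
  have hF' : F'.WeaklyConnected := by
    let i : F.underlying ≃g F'.underlying :=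
      { toEquiv := e
        map_rel_iff' := by
          intro a b
          exact (or_congr (hiso a b) (hiso b a)).symm }
    exact (SimpleGraph.Iso.connected_iff i).1 hF
  rw [Set.infinite_iff_exists_gt]
  intro M
  obtain ⟨V, hV, G, hN, hG⟩ := hfin _ F' hF' (by rw [Nat.card_fin]; exact h3) (M + 1)
  haveI := Fintype.ofFinite V
  let eV := Fintype.equivFin V
  let G' : OrientedGraph (Fin (Fintype.card V)) :=
    { Arc := fun a b => G.Arc (eV.symm a) (eV.symm b)
      asymm := fun _ _ h h' => G.asymm _ _ h h' }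
  refine ⟨Fintype.card V, ⟨G', ?_⟩, ?_⟩
  · refine irregular_congr eV e.symm ?_ ?_ hG
    · intro a b
      show G.Arc a b ↔ G.Arc (eV.symm (eV a)) (eV.symm (eV b))
      rw [Equiv.symm_apply_apply, Equiv.symm_apply_apply]
    · intro x y
      rw [hiso, Equiv.apply_symm_apply, Equiv.apply_symm_apply]
  · rw [Nat.card_eq_fintype_card] at hN
    omega

end Pool.Agent.K7.H12.FI
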