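import Pool.Agent.K7.H12.FI.Aut
import Pool.Agent.K7.H12.FI.Diff
import Pool.Agent.K7.H12.FI.Emb
import Pool.Agent.K7.H12.FI.Par
import Pool.Agent.K7.H12.FI.Tr
import Pool.Agent.K7.H12.FI.NonStar
import Pool.Agent.K7.H7.FI.Chain
import Pool.Agent.K7.H7.FI.WB
import Pool.Agent.K7.H41.FI.Size
import Pool.Agent.K7.H31.FI.LB
import Pool.Agent.K7.H42.FI.Split
import Pool.Agent.K7.H42.FI.Row
import Pool.Agent.K7.H47.FI.T
import Pool.Agent.K7.H47.FI.W
import Pool.Agent.K7.H54.FI.Col
import Pool.Agent.K7.H62.FI.Star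
import Pool.Agent.K7.H53.FI.SL
import Pool.Agent.K7.H53.FI.TW
import Pool.Agent.K7.H88.FI.UB
import Pool.Agent.K7.H88.FI.Two
import Pool.Agent.K7.H88.FI.Cross

/-!
# Project FI: everything together
-/

set_option autoImplicit false

namespace Pool.Agent.K7.H12.FI

open Pool.Agent.K7.H15.Irr

theorem stChain : StChain := Pool.Agent.K7.H7.FI.chain Pool.Agent.K7.H88.FI.ub

theorem stSplit : StSplit := Pool.Agent.K7.H42.FI.split Pool.Agent.K7.H88.FI.ub

theorem stSL : StSL := Pool.Agent.K7.H53.FI.sl Pool.Agent.K7.H88.FI.ub stChain stSplit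

theorem stSize : StSize := Pool.Agent.K7.H41.FI.size

theorem stLB0 : StLB0 := Pool.Agent.K7.H31.FI.lb0 stEmb stSize

theorem stLB1 : StLB1 := Pool.Agent.K7.H31.FI.lb1 stEmb stSize

theorem stLB2 : StLB2 := Pool.Agent.K7.H31.FI.lb2 stEmb stSize

theorem stRow : StRow := Pool.Agent.K7.H42.FI.row stDiff stChain stSplit stLB1 stSize

theorem stT : StT := Pool.Agent.K7.H47.FI.stT stDiff stChain stSplit stLB1 stSize

theorem stTW : StTW := Pool.Agent.K7.H53.FI.tw stDiff stSplit stLB1 stSize

theorem stTwo : StTwo := Pool.Agent.K7.H88.FI.two stLB0 stDiff stSplit stSize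

theorem stCross : StCross := Pool.Agent.K7.H88.FI.cross stLB0 stSize stTwo

theorem stW : StW := Pool.Agent.K7.H47.FI.stW stDiff stChain stSplit stLB1 stSize

theorem stWB : StWB := Pool.Agent.K7.H7.FI.wb stDiff stChain stSplit stLB1 stSize stW

theorem stCol : StCol := Pool.Agent.K7.H54.FI.col stDiff stSplit stSL stLB2 stSize

theorem stStar : StStar := Pool.Agent.K7.H62.FI.star stAut

theorem stNonStar : StNonStar := nonStar stAut stRow stCol stW stT stWB stTW stCross stPar

theorem stFin : StFin := fin stNonStar stStar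

universe u

/-- For every weakly connected oriented graph `F` with at least three vertices there are `F`-irregular
oriented graphs of infinitely many orders. -/
theorem all {X : Type u} [Fintype X] (F : OrientedGraph X) (hF : F.WeaklyConnected)
    (h3 : 3 ≤ Fintype.card X) : {n : ℕ | ∃ G : OrientedGraph (Fin n), Irregular F G}.Infinite :=
  final stFin F hF h3

end Pool.Agent.K7.H12.FI
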