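import Pool.Agent.K7.H12.FI.Defs

/-!
# Project FI, job AUT: injective homomorphisms and subgraphs
-/

set_option autoImplicit false

namespace Pool.Agent.K7.H12.FI

open Pool.Agent.K7.H15.Irr

theorem stAut : StAut := by
  classical
  intro X V _ _ F G
  refine ⟨Nat.card {σ : Equiv.Perm X // ∀ x y, F.Arc x y ↔ F.Arc (σ x) (σ y)}, fun v => ?_⟩
  unfold fdeg
  rw [← Nat.card_prod, ← Nat.card_coe_set_eq]
  symm
  have key : ∀ (σ : {σ : Equiv.Perm X // ∀ x y, F.Arc x y ↔ F.Arc (σ x) (σ y)})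
      (H : {H : Sub G // v ∈ H.verts ∧ H.IsoTo F}),
      (fun x => (H.2.2.choose (σ.1 x) : V)) ∈ homs F G (fun φ => v ∈ Set.range φ) := by
    rintro ⟨σ, hσ⟩ ⟨H, hv, hH⟩
    refine ⟨fun x y hxy => σ.injective (hH.choose.injective (Subtype.ext hxy)), ?_, ?_⟩
    · intro x y hxy
      exact (H.arc _ ((hH.choose_spec _ _).1 ((hσ x y).1 hxy))).1
    · obtain ⟨x, hx⟩ := hH.choose.surjective ⟨v, hv⟩
      refine ⟨σ.symm x, ?_⟩
      show ((hH.choose (σ (σ.symm x)) : H.verts) : V) = v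
      rw [Equiv.apply_symm_apply, hx]
  have hsub : ∀ (σ : {σ : Equiv.Perm X // ∀ x y, F.Arc x y ↔ F.Arc (σ x) (σ y)})
      (H : {H : Sub G // v ∈ H.verts ∧ H.IsoTo F}),
      H.1 = imgSub F G (fun x => (H.2.2.choose (σ.1 x) : V)) (key σ H).2.1 := by
    rintro ⟨σ, hσ⟩ ⟨H, hv, hH⟩
    refine Sub.ext ?_ ?_
    · ext w
      constructor
      · intro hw
        refine ⟨σ.symm (hH.choose.symm ⟨w, hw⟩), ?_⟩
        show ((hH.choose (σ (σ.symm (hH.choose.symm ⟨w, hw⟩))) : H.verts) : V) = w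
        rw [Equiv.apply_symm_apply, Equiv.apply_symm_apply]
      · rintro ⟨x, rfl⟩
        exact (hH.choose (σ x)).2
    · ext ⟨w, w'⟩
      constructor
      · intro hw
        obtain ⟨h1, h2, h3⟩ := H.arc _ hw
        refine ⟨σ.symm (hH.choose.symm ⟨w, h2⟩), σ.symm (hH.choose.symm ⟨w', h3⟩), ?_, ?_⟩
        · rw [hσ, hH.choose_spec]
          simpa using hw
        · show (((hH.choose (σ (σ.symm (hH.choose.symm ⟨w, h2⟩))) : H.verts) : V),
            ((hH.choose (σ (σ.symm (hH.choose.symm ⟨w', h3⟩))) : H.verts) : V)) = (w, w')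
          simp
      · rintro ⟨x, y, hxy, he⟩
        rw [← he]
        exact (hH.choose_spec _ _).1 ((hσ x y).1 hxy)
  refine Nat.card_eq_of_bijective (fun q => (⟨_, key q.1 q.2⟩ :
    homs F G (fun φ => v ∈ Set.range φ))) ⟨?_, ?_⟩
  · rintro ⟨σ, H⟩ ⟨σ', H'⟩ hq
    have h1 : (fun x => (H.2.2.choose (σ.1 x) : V)) = (fun x => (H'.2.2.choose (σ'.1 x) : V)) :=
      congrArg Subtype.val hq
    have h2 : H = H' := by
      apply Subtype.ext
      rw [hsub σ H, hsub σ' H']
      congr 1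
    subst h2
    have h3 : σ = σ' := by
      apply Subtype.ext
      ext x
      exact H.2.2.choose.injective (Subtype.ext (congrFun h1 x))
    rw [h3]
  · rintro ⟨φ, hinj, hhom, hv⟩
    have hiso : (imgSub F G φ hhom).IsoTo F := by
      refine ⟨Equiv.ofInjective φ hinj, fun x y => ⟨fun h => ⟨x, y, h, rfl⟩, ?_⟩⟩
      rintro ⟨x', y', h, he⟩
      have h1 : φ x' = φ x := congrArg Prod.fst he
      have h2 : φ y' = φ y := congrArg Prod.snd he
      rwa [hinj h1, hinj h2] at h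
    let e := Equiv.ofInjective φ hinj
    let σ : Equiv.Perm X := e.trans hiso.choose.symm
    have hσ1 : ∀ x, ((hiso.choose (σ x) : (imgSub F G φ hhom).verts) : V) = φ x := by
      intro x
      show ((hiso.choose (hiso.choose.symm (e x)) : (imgSub F G φ hhom).verts) : V) = φ x
      rw [Equiv.apply_symm_apply]
      rfl
    have hσ : ∀ x y, F.Arc x y ↔ F.Arc (σ x) (σ y) := by
      intro x y
      rw [hiso.choose_spec (σ x) (σ y), hσ1, hσ1]
      constructor
      · intro h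
        exact ⟨x, y, h, rfl⟩
      · rintro ⟨x', y', h, he⟩
        have h1 : φ x' = φ x := congrArg Prod.fst he
        have h2 : φ y' = φ y := congrArg Prod.snd he
        rwa [hinj h1, hinj h2] at h
    refine ⟨⟨⟨σ, hσ⟩, ⟨imgSub F G φ hhom, hv, hiso⟩⟩, ?_⟩
    apply Subtype.ext
    funext x
    exact hσ1 x

end Pool.Agent.K7.H12.FI
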