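import Pool.Agent.K7.H12.FI.Defs

/-!
# Project FI: the graph and the statements of the comparisons
-/

set_option autoImplicit false

namespace Pool.Agent.K7.H12.FI

open Pool.Agent.K7.H15.Irr

/-- the labels: the bulk `(i, j)` (row `i`, column `j`), the row hubs `(c, l)` (block `c`, level `l`),
the column hubs `j` -/
inductive Lab where
  | bulk (i j : ℕ)
  | t (c l : ℕ)
  | w (j : ℕ)
  deriving DecidableEq

/-- the parameters: `ρ` an endomorphism of `F`, `r g` the number of the rows of the class `g`, `R g` the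
number of the levels of the row hubs in the class `g`, `m` the number of the columns, `b` the number
of the blocks, `blk j` the block of the column `j` -/
structure Par (X : Type) where
  ρ : X → X
  r : X → ℕ
  R : X → ℕ
  m : ℕ
  b : ℕ
  blk : ℕ → ℕ

/-- missing pairs of labels -/
def Mis {X : Type} (P : Par X) : Lab → Lab → Prop
  | .bulk _ _, .bulk _ _ => False
  | .bulk i j, .t c l => P.blk j = c ∧ l ≤ i
  | .t c l, .bulk i j => P.blk j = c ∧ l ≤ i
  | .bulk _ j, .w j' => j = j'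
  | .w j', .bulk _ j => j = j'
  | .t _ _, .t _ _ => False
  | .t _ _, .w _ => True
  | .w _, .t _ _ => True
  | .w j, .w j' => P.m < j + j' + 2

/-- the classes -/
abbrev Cls {X : Type} (P : Par X) : Type := {g : X // g ∈ Set.range P.ρ}

/-- the vertices -/
abbrev Vt {X : Type} (P : Par X) : Type :=
  Σ g : Cls P, (Fin (P.r g.1) × Fin P.m) ⊕ ((Fin P.b × Fin (P.R g.1)) ⊕ Fin P.m)

/-- bulk vertices -/
def bk {X : Type} {P : Par X} (g : Cls P) (i : Fin (P.r g.1)) (j : Fin P.m) : Vt P :=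
  ⟨g, Sum.inl (i, j)⟩

/-- row hubs -/
def tt {X : Type} {P : Par X} (g : Cls P) (c : Fin P.b) (l : Fin (P.R g.1)) : Vt P :=
  ⟨g, Sum.inr (Sum.inl (c, l))⟩

/-- column hubs -/
def ww {X : Type} {P : Par X} (g : Cls P) (j : Fin P.m) : Vt P := ⟨g, Sum.inr (Sum.inr j)⟩

/-- the label -/
def lab {X : Type} {P : Par X} : Vt P → Lab
  | ⟨_, Sum.inl (i, j)⟩ => .bulk i j
  | ⟨_, Sum.inr (Sum.inl (c, l))⟩ => .t c l
  | ⟨_, Sum.inr (Sum.inr j)⟩ => .w j

/-- the class -/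
def cl {X : Type} {P : Par X} (a : Vt P) : X := a.1.1

/-- the image of `F` under the endomorphism `ρ` -/
def img {X : Type} (F : OrientedGraph X) (ρ : X → X) (h : IsHom F F ρ) : OrientedGraph X where
  Arc g g' := ∃ x y, F.Arc x y ∧ ρ x = g ∧ ρ y = g'
  asymm := by
    rintro a b ⟨x, y, hxy, rfl, rfl⟩ ⟨x', y', hxy', h1, h2⟩
    have e1 := h _ _ hxy
    have e2 := h _ _ hxy'
    rw [h1, h2] at e2
    exact F.asymm _ _ e1 e2

/-- the graph -/
def gph {X : Type} (F : OrientedGraph X) (P : Par X) (h : IsHom F F P.ρ) :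
    OrientedGraph (Vt P) where
  Arc a b := (img F P.ρ h).Arc (cl a) (cl b) ∧ ¬ Mis P (lab a) (lab b)
  asymm := fun _ _ h1 h2 => (img F P.ρ h).asymm _ _ h1.1 h2.1

/-- `(16 k) ^ k`, a bound for the row multipliers -/
noncomputable def xb (X : Type) : ℕ := (16 * Nat.card X) ^ Nat.card X

/-- The conditions on the parameters; `A` is a large constant, `a`, `B` are auxiliary parameters,
`x g` is the row multiplier. -/
structure Ok {X : Type} (F : OrientedGraph X) (P : Par X) (h : IsHom F F P.ρ) (A a B : ℕ)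
    (x : X → ℕ) : Prop where
  hx : ∀ g : Cls P, 1 ≤ x g.1 ∧ x g.1 ≤ xb X
  hr : ∀ g : Cls P, P.r g.1 = x g.1 * a
  ratio : ∀ g g' : Cls P, g ≠ g' → 16 * Nat.card X * x g.1 ≤ x g'.1 ∨
    16 * Nat.card X * x g'.1 ≤ x g.1
  Rup : ∀ g g' : Cls P, (img F P.ρ h).underlying.Adj g.1 g'.1 → P.r g'.1 ≤ P.R g.1
  Rex : ∀ g : Cls P, ∃ g' : Cls P, (img F P.ρ h).underlying.Adj g.1 g'.1 ∧ P.r g'.1 = P.R g.1
  blk_lt : ∀ j, j < P.m → P.blk j < P.b
  blk_mono : ∀ j, j + 1 < P.m → P.blk (j + 1) = P.blk j ∨ P.blk (j + 1) = P.blk j + 1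
  blk_card : ∀ c, c < P.b → {j : ℕ | j < P.m ∧ P.blk j = c}.ncard = B + c
  even : Even P.m
  ha : A ≤ a
  hb : A * a ^ 2 ≤ P.b
  hB : A * a * P.b ≤ B

/-- comparison statements: for all large `A` -/
def Ev {X : Type} (F : OrientedGraph X) (S : (P : Par X) → IsHom F F P.ρ → Prop) : Prop :=
  ∃ A : ℕ, ∀ (P : Par X) (h : IsHom F F P.ρ) (a B : ℕ) (x : X → ℕ), Ok F P h A a B x → S P h

/-- JOB LB0: every vertex is in many copies -/
def StLB0 : Prop := ∀ (X : Type) [Finite X] (F : OrientedGraph X), F.WeaklyConnected →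
  3 ≤ Nat.card X → ∃ c : ℝ, 0 < c ∧ Ev F (fun P h => ∀ v : Vt P,
    c * err X (Vt P) 1 ≤ D F (gph F P h) v)

/-- JOB LB1: gain of one neighbour, level one.  The neighbourhood `S` of `v` contains nearly all bulk
vertices of the adjacent classes. -/
def StLB1 : Prop := ∀ (X : Type) [Finite X] (F : OrientedGraph X), F.WeaklyConnected →
  3 ≤ Nat.card X → ∃ c : ℝ, 0 < c ∧ Ev F (fun P h => ∀ (v v' u : Vt P) (S : Set (Vt P)),
    v ≠ v' → cl v = cl v' → (img F P.ρ h).underlying.Adj (cl v) (cl u) → u ∈ S →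
    ({y : Vt P | (∃ g i j, y = bk g i j) ∧ (img F P.ρ h).underlying.Adj (cl v) (cl y) ∧
      y ∉ S}.ncard : ℝ) ≤ c * Nat.card (Vt P) →
    c * err X (Vt P) 2 ≤ mu F (upd (img F P.ρ h) cl (gph F P h) v S)
      (fun φ => E1 v v' φ ∧ Uses F v u φ))

/-- JOB LB2: gain of one neighbour, level two: a path `v - z - u` of `G` over a path of `F`; `S` is the
neighbourhood of `v`, `T` the one of `z` -/
def StLB2 : Prop := ∀ (X : Type) [Finite X] (F : OrientedGraph X), F.WeaklyConnected →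
  3 ≤ Nat.card X → ∃ c : ℝ, 0 < c ∧ Ev F (fun P h => ∀ (y1 y2 y3 : X) (v v' z z' u : Vt P)
    (S T : Set (Vt P)), F.underlying.Adj y1 y2 → F.underlying.Adj y2 y3 → y1 ≠ y3 →
    cl v = P.ρ y1 → cl z = P.ρ y2 → cl u = P.ρ y3 → v ≠ v' → cl v = cl v' → z ≠ z' → cl z = cl z' →
    v ≠ u → v' ≠ u → z ∈ S → (F.underlying.Adj y1 y3 → u ∈ S) → v ∈ T → u ∈ T →
    ({y : Vt P | (∃ g i j, y = bk g i j) ∧ (((img F P.ρ h).underlying.Adj (cl v) (cl y) ∧ y ∉ S) ∨
      ((img F P.ρ h).underlying.Adj (cl z) (cl y) ∧ y ∉ T))}.ncard : ℝ) ≤ c * Nat.card (Vt P) →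
    c * err X (Vt P) 3 ≤
      mu F (upd (img F P.ρ h) cl (upd (img F P.ρ h) cl (gph F P h) v S) z T)
      (fun φ => (E1 v v' φ ∧ z' ∉ Set.range φ ∧ Uses F v z φ) ∧ Uses F z u φ))

/-- JOB SIZE: sizes, and the sizes of the symmetric differences -/
def StSize : Prop := ∀ (X : Type) [Finite X] (F : OrientedGraph X), F.WeaklyConnected →
  3 ≤ Nat.card X → ∃ C : ℝ, 0 < C ∧ ∃ A : ℕ, ∀ (P : Par X) (h : IsHom F F P.ρ) (a B : ℕ)
    (x : X → ℕ), Ok F P h A a B x →
    0 < P.m ∧ 0 < Nat.card (Vt P) ∧ P.b * B ≤ P.m ∧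
    (∀ c : ℕ, {j : ℕ | j < P.m ∧ P.blk j = c}.ncard ≤ 2 * B) ∧
    (Nat.card (Vt P) : ℝ) ≤ C * (a * P.m) ∧ ((a * P.m : ℕ) : ℝ) ≤ Nat.card (Vt P) ∧
    (∀ g : Cls P, P.R g.1 ≤ xb X * a) ∧
    -- two bulk vertices of one class
    (∀ (g : Cls P) (i i' : Fin (P.r g.1)) (j j' : Fin P.m),
      ((sd (gph F P h) (bk g i j) (bk g i' j')).ncard : ℝ) ≤ C * a) ∧
    -- two row hubs of one class
    (∀ (g : Cls P) (c c' : Fin P.b) (l l' : Fin (P.R g.1)),
      ((sd (gph F P h) (tt g c l) (tt g c' l')).ncard : ℝ) ≤ C * (a * B)) ∧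
    -- two column hubs of one class
    (∀ (g : Cls P) (j j' : Fin P.m), ((sd (gph F P h) (ww g j) (ww g j')).ncard : ℝ) ≤
      C * (a + |((j : ℕ) : ℝ) - ((j' : ℕ) : ℝ)|)) ∧
    -- a vertex misses few vertices
    (∀ v : Vt P, (({u | (img F P.ρ h).underlying.Adj (cl v) (cl u)} \ nb (gph F P h) v : Set (Vt P)).ncard
      : ℝ) ≤ C * (P.m + a * B)) ∧
    -- a vertex misses very few bulk vertices
    (∀ v : Vt P, ({u | (img F P.ρ h).underlying.Adj (cl v) (cl u) ∧ (∃ g i j, u = bk g i j) ∧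
      u ∉ nb (gph F P h) v}.ncard : ℝ) ≤ C * (a * B))

/-- JOB ROW: rows of the bulk -/
def StRow : Prop := ∀ (X : Type) [Finite X] (F : OrientedGraph X), F.WeaklyConnected →
  3 ≤ Nat.card X → Ev F (fun P h => ∀ (g : Cls P) (i i' : Fin (P.r g.1)) (j j' : Fin P.m), i < i' →
    D F (gph F P h) (bk g i' j') < D F (gph F P h) (bk g i j))

/-- JOB COL: columns of the bulk, `F` is not a star -/
def StCol : Prop := ∀ (X : Type) [Finite X] (F : OrientedGraph X), F.WeaklyConnected →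
  3 ≤ Nat.card X → (∀ c : X, ∃ x y, F.Arc x y ∧ x ≠ c ∧ y ≠ c) →
  Ev F (fun P h => ∀ (g : Cls P) (i : Fin (P.r g.1)) (j j' : Fin P.m), (j : ℕ) + 1 = (j' : ℕ) →
    D F (gph F P h) (bk g i j) < D F (gph F P h) (bk g i j'))

/-- JOB W: column hubs -/
def StW : Prop := ∀ (X : Type) [Finite X] (F : OrientedGraph X), F.WeaklyConnected →
  3 ≤ Nat.card X → Ev F (fun P h => ∀ (g : Cls P) (j j' : Fin P.m), j < j' →
    D F (gph F P h) (ww g j') < D F (gph F P h) (ww g j))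

/-- JOB T: row hubs -/
def StT : Prop := ∀ (X : Type) [Finite X] (F : OrientedGraph X), F.WeaklyConnected →
  3 ≤ Nat.card X → Ev F (fun P h => ∀ (g : Cls P) (c c' : Fin P.b) (l l' : Fin (P.R g.1)),
    (l < l' ∨ (l = l' ∧ c' < c)) → D F (gph F P h) (tt g c l) < D F (gph F P h) (tt g c' l'))

/-- JOB WB: column hubs and the bulk -/
def StWB : Prop := ∀ (X : Type) [Finite X] (F : OrientedGraph X), F.WeaklyConnected →
  3 ≤ Nat.card X → Ev F (fun P h => ∀ (g : Cls P) (i : Fin (P.r g.1)) (j j' : Fin P.m),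
    D F (gph F P h) (ww g j') < D F (gph F P h) (bk g i j))

/-- JOB TW: row hubs and column hubs -/
def StTW : Prop := ∀ (X : Type) [Finite X] (F : OrientedGraph X), F.WeaklyConnected →
  3 ≤ Nat.card X → Ev F (fun P h => ∀ (g : Cls P) (c : Fin P.b) (l : Fin (P.R g.1)) (j : Fin P.m),
    D F (gph F P h) (tt g c l) < D F (gph F P h) (ww g j))

/-- JOB TWO: one class, factor 2 -/
def StTwo : Prop := ∀ (X : Type) [Finite X] (F : OrientedGraph X), F.WeaklyConnected →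
  3 ≤ Nat.card X → Ev F (fun P h => ∀ v v' : Vt P, cl v = cl v' →
    D F (gph F P h) v ≤ 2 * D F (gph F P h) v')

/-- JOB CROSS: different classes (`ρ` has minimal image) -/
def StCross : Prop := ∀ (X : Type) [Finite X] (F : OrientedGraph X), F.WeaklyConnected →
  3 ≤ Nat.card X → Ev F (fun P h =>
    (∀ f : X → X, IsHom F F f → (Set.range P.ρ).ncard ≤ (Set.range f).ncard) →
    ∀ v v' : Vt P, cl v ≠ cl v' → D F (gph F P h) v ≠ D F (gph F P h) v')

/-- JOB PAR: there are parameters -/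
def StPar : Prop := ∀ (X : Type) [Finite X] (F : OrientedGraph X), F.WeaklyConnected →
  3 ≤ Nat.card X → ∀ A N : ℕ, ∃ (P : Par X) (h : IsHom F F P.ρ) (a B : ℕ) (x : X → ℕ),
    Ok F P h A a B x ∧ N ≤ Nat.card (Vt P) ∧
    ∀ f : X → X, IsHom F F f → (Set.range P.ρ).ncard ≤ (Set.range f).ncard

/-- `F` is not a star -/
def StNonStar : Prop := ∀ (X : Type) [Finite X] (F : OrientedGraph X), F.WeaklyConnected →
  3 ≤ Nat.card X → (∀ c : X, ∃ x y, F.Arc x y ∧ x ≠ c ∧ y ≠ c) →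
  ∀ N : ℕ, ∃ (V : Type) (_ : Finite V) (G : OrientedGraph V), N ≤ Nat.card V ∧ Irregular F G

/-- JOB STAR: `F` is a star with at least two arcs from the centre -/
def StStar : Prop := ∀ (X : Type) [Finite X] (F : OrientedGraph X), F.WeaklyConnected →
  ∀ c : X, (∀ x y, F.Arc x y → x = c ∨ y = c) → 2 ≤ {y | F.Arc c y}.ncard →
  ∀ N : ℕ, ∃ (V : Type) (_ : Finite V) (G : OrientedGraph V), N ≤ Nat.card V ∧ Irregular F G

/-- JOB FIN: everything -/
def StFin : Prop := ∀ (X : Type) [Finite X] (F : OrientedGraph X), F.WeaklyConnected →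
  3 ≤ Nat.card X →
  ∀ N : ℕ, ∃ (V : Type) (_ : Finite V) (G : OrientedGraph V), N ≤ Nat.card V ∧ Irregular F G

end Pool.Agent.K7.H12.FI
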