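import Pool.Agent.K7.H15.Irr.Defs

/-!
# Project FI: definitions and the statements of the jobs

`F`-irregular oriented graphs for every weakly connected `F` with at least three vertices.
-/

set_option autoImplicit false

namespace Pool.Agent.K7.H12.FI

open Pool.Agent.K7.H15.Irr

/-! ### General notions -/

/-- the injective homomorphisms of `F` to `G` with the property `E` -/
def homs {X V : Type} (F : OrientedGraph X) (G : OrientedGraph V) (E : (X → V) → Prop) :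
    Set (X → V) :=
  {φ | Function.Injective φ ∧ IsHom F G φ ∧ E φ}

/-- their number divided by `n ^ k` -/
noncomputable def mu {X V : Type} (F : OrientedGraph X) (G : OrientedGraph V)
    (E : (X → V) → Prop) : ℝ :=
  ((homs F G E).ncard : ℝ) / (Nat.card V : ℝ) ^ (Nat.card X)

/-- `(k / n) ^ q` -/
noncomputable def err (X V : Type) (q : ℕ) : ℝ := ((Nat.card X : ℝ) / (Nat.card V : ℝ)) ^ q

/-- the normalised number of the injective homomorphisms through `v` -/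
noncomputable def D {X V : Type} (F : OrientedGraph X) (G : OrientedGraph V) (v : V) : ℝ :=
  mu F G (fun φ => v ∈ Set.range φ)

/-- `φ` maps an edge of `F` to `a`, `b` -/
def Uses {X V : Type} (F : OrientedGraph X) (a b : V) (φ : X → V) : Prop :=
  ∃ x y, F.underlying.Adj x y ∧ φ x = a ∧ φ y = b

/-- `φ` contains `v` and not `v'` -/
def E1 {X V : Type} (v v' : V) (φ : X → V) : Prop := v ∈ Set.range φ ∧ v' ∉ Set.range φ

/-- `p` is a homomorphism of `G` to `H` -/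
def Over {X V : Type} (H : OrientedGraph X) (p : V → X) (G : OrientedGraph V) : Prop :=
  ∀ a b, G.Arc a b → H.Arc (p a) (p b)

/-- the neighbourhood of `s` is replaced by `P` (intersected with the classes adjacent to the class
of `s`) -/
def upd {X V : Type} (H : OrientedGraph X) (p : V → X) (G : OrientedGraph V) (s : V) (P : Set V) :
    OrientedGraph V where
  Arc a b := H.Arc (p a) (p b) ∧
    ((a ≠ s ∧ b ≠ s ∧ G.Arc a b) ∨ (a = s ∧ b ∈ P) ∨ (b = s ∧ a ∈ P))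
  asymm := fun _ _ h h' => H.asymm _ _ h.1 h'.1

/-- the neighbourhood -/
def nb {V : Type} (G : OrientedGraph V) (a : V) : Set V := {c | G.underlying.Adj a c}

/-- the symmetric difference of the neighbourhoods -/
def sd {V : Type} (G : OrientedGraph V) (a b : V) : Set V :=
  {c | ¬ (G.underlying.Adj a c ↔ G.underlying.Adj b c)}

/-! ### General lemmas (jobs UB, DIFF, CHAIN, SPLIT, SL, EMB, AUT) -/

/-- JOB UB: copies that contain all of `A` and some element of `S` outside `A` -/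
def StUB : Prop := ∀ (X V : Type) [Finite X] [Finite V] [Nonempty V] (F : OrientedGraph X)
  (G : OrientedGraph V) (E : (X → V) → Prop) (A : Finset V),
  ((∀ φ, Function.Injective φ → E φ → ∀ a ∈ A, a ∈ Set.range φ) → mu F G E ≤ err X V A.card) ∧
  (∀ S : Set V, (∀ φ, Function.Injective φ → E φ →
      (∀ a ∈ A, a ∈ Set.range φ) ∧ ∃ c ∈ S, c ∉ A ∧ c ∈ Set.range φ) →
    mu F G E ≤ S.ncard * err X V (A.card + 1))

/-- JOB DIFF: `D v - D v'` for `v`, `v'` in one class -/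
def StDiff : Prop := ∀ (X V : Type) [Finite X] [Finite V] (F H : OrientedGraph X) (p : V → X)
  (G : OrientedGraph V), Over H p G → ∀ v v' : V, v ≠ v' → p v = p v' →
  D F G v - D F G v' =
    mu F (upd H p G v (nb G v)) (E1 v v') - mu F (upd H p G v (nb G v')) (E1 v v')

/-- JOB CHAIN: move the neighbours `f i` of `s` to `f' i` -/
def StChain : Prop := ∀ (X V : Type) [Finite X] [Finite V] [Nonempty V] (F H : OrientedGraph X)
  (p : V → X) (G : OrientedGraph V), Over H p G → ∀ (s : V) (A : Finset V) (E : (X → V) → Prop),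
  s ∈ A → (∀ φ, Function.Injective φ → E φ → ∀ a ∈ A, a ∈ Set.range φ) →
  ∀ (ι : Type) (I : Finset ι) (f f' : ι → V) (U : Set V),
  (∀ i ∈ I, f i ∉ U ∧ f' i ∉ U ∧ f i ∉ A ∧ f' i ∉ A ∧ p (f i) = p (f' i) ∧
    (∀ a ∈ A, a ≠ s → (G.underlying.Adj a (f i) ↔ G.underlying.Adj a (f' i))) ∧
    (∀ φ, E φ → ∀ τ : Equiv.Perm V, (∀ c, c ≠ f i → c ≠ f' i → τ c = c) → E (τ ∘ φ))) →
  Set.InjOn f I → Set.InjOn f' I → (∀ i ∈ I, ∀ j ∈ I, f i ≠ f' j) →
  mu F (upd H p G s (U ∪ f '' I)) E ≤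
    mu F (upd H p G s (U ∪ f' '' I)) E +
      ∑ i ∈ I, ((sd G (f i) (f' i)).ncard : ℝ) * err X V (A.card + 2)

/-- JOB SPLIT -/
def StSplit : Prop := ∀ (X V : Type) [Finite X] [Finite V] [Nonempty V] (F H : OrientedGraph X)
  (p : V → X) (G : OrientedGraph V) (s : V) (E : (X → V) → Prop),
  (∀ P P' : Set V, P ⊆ P' → mu F (upd H p G s P) E ≤ mu F (upd H p G s P') E) ∧
  (∀ (P : Set V) (c : V), c ∉ P → c ≠ s → mu F (upd H p G s (insert c P)) E =
    mu F (upd H p G s P) E + mu F (upd H p G s (insert c P)) (fun φ => E φ ∧ Uses F s c φ)) ∧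
  ((∀ φ, E φ → s ∈ Set.range φ) → ∀ P P' : Set V, P ⊆ P' → mu F (upd H p G s P') E ≤
    mu F (upd H p G s P) E + ((P' \ P).ncard : ℝ) * err X V 2)

/-- JOB SL: the second level.  `z`, `z'` are in one class; the neighbourhood of `z'` is contained in
`U ∪ f I`, the neighbourhood of `z` contains `U ∪ f' I` and, in the second part, also `c`. -/
def StSL : Prop := ∀ (X V : Type) [Finite X] [Finite V] [Nonempty V] (F H : OrientedGraph X)
  (p : V → X) (G : OrientedGraph V), Over H p G → ∀ (v v' z z' : V), v ≠ v' → z ≠ z' →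
  p v = p v' → p z = p z' → p v ≠ p z → ∀ P : Set V, z ∉ P → z' ∉ P →
  ∀ (ι : Type) (I : Finset ι) (f f' : ι → V) (U : Set V),
  (∀ i ∈ I, f i ∉ U ∧ f' i ∉ U ∧ f i ≠ v ∧ f' i ≠ v ∧ f i ≠ v' ∧ f' i ≠ v' ∧
    p (f i) ≠ p z ∧ p (f i) = p (f' i) ∧ (f i ∈ P ↔ f' i ∈ P)) →
  Set.InjOn f I → Set.InjOn f' I → (∀ i ∈ I, ∀ j ∈ I, f i ≠ f' j) →
  (∀ c, c ∈ nb G z' → c ≠ v → c ≠ v' → c ∈ U ∪ f '' I) →
  (∀ c, c ∈ U ∪ f' '' I → c ≠ v → c ≠ v' → c ∈ nb G z) →
  mu F (upd H p G v (insert z' P)) (E1 v v') ≤ mu F (upd H p G v (insert z P)) (E1 v v') +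
    (((sd G z z' : Set V).ncard : ℝ) + ∑ i ∈ I, ((sd G (f i) (f' i)).ncard : ℝ)) * err X V 4 ∧
  ∀ c, c ≠ v → c ≠ v' → c ∈ nb G z → c ∉ U ∪ f' '' I →
  mu F (upd H p G v (insert z' P)) (E1 v v') +
    mu F (upd H p (upd H p G v (insert z P)) z (insert c (insert v (U ∪ f' '' I))))
      (fun φ => (E1 v v' φ ∧ z' ∉ Set.range φ ∧ Uses F v z φ) ∧ Uses F z c φ) ≤
  mu F (upd H p G v (insert z P)) (E1 v v') +
    (((sd G z z' : Set V).ncard : ℝ) + ∑ i ∈ I, ((sd G (f i) (f' i)).ncard : ℝ)) * err X V 4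

/-- JOB EMB: many homomorphisms with prescribed values on `Y` -/
def StEmb : Prop := ∀ (X V : Type) [Finite X] [Finite V] (F : OrientedGraph X)
  (G : OrientedGraph V) (E : (X → V) → Prop) (Y : Finset X) (η : X → V) (Q : X → Set V) (M : ℕ),
  Set.InjOn η Y → (∀ x, x ∉ Y → M ≤ (Q x).ncard) →
  (∀ x y, x ∉ Y → y ∉ Y → x ≠ y → Disjoint (Q x) (Q y)) →
  (∀ x y, x ∉ Y → y ∈ Y → η y ∉ Q x) →
  (∀ x y, F.Arc x y → x ∈ Y → y ∈ Y → G.Arc (η x) (η y)) →
  (∀ x y, F.Arc x y → x ∈ Y → y ∉ Y → ∀ c ∈ Q y, G.Arc (η x) c) →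
  (∀ x y, F.Arc x y → x ∉ Y → y ∈ Y → ∀ c ∈ Q x, G.Arc c (η y)) →
  (∀ x y, F.Arc x y → x ∉ Y → y ∉ Y → ∀ c ∈ Q x, ∀ d ∈ Q y, G.Arc c d) →
  (∀ φ : X → V, (∀ y ∈ Y, φ y = η y) → (∀ x, x ∉ Y → φ x ∈ Q x) → E φ) →
  M ^ (Nat.card X - Y.card) ≤ (homs F G E).ncard

/-- JOB AUT: the `F`-degree and the number of the injective homomorphisms -/
def StAut : Prop := ∀ (X V : Type) [Finite X] [Finite V] (F : OrientedGraph X)
  (G : OrientedGraph V), ∃ c : ℕ, ∀ v : V,
    (homs F G (fun φ => v ∈ Set.range φ)).ncard = c * fdeg F G v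

end Pool.Agent.K7.H12.FI
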